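import Pool.Agent.helper54.JS.K1
import Pool.Agent.helper66.JS.Defs3

/-!
# Module K2: the universal reduction is computable in polynomial time
-/

set_option autoImplicit false
set_option linter.unusedSimpArgs false
set_option linter.unusedVariables false

namespace Pool.Agent.helper66.JS

namespace K2

open Pool.Agent.H54.PT Function K1

/-! ### Unary blocks -/

/-- number of zeros before `i` -/
def zc (w : List Bool) (i : ℕ) : ℕ :=
  ((Finset.range i).filter (fun l => ¬ w.getD l false = true)).card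

/-- length of block number `j` -/
def bk (w : List Bool) (j : ℕ) : ℕ :=
  ((Finset.range w.length).filter (fun i => w.getD i false = true ∧ zc w i = j)).card

/-- position of zero number `j`, plus one -/
def sx (w : List Bool) (j : ℕ) : ℕ :=
  ((Finset.range w.length).filter (fun i => zc w (i + 1) < j)).card

lemma zc_zero (w : List Bool) : zc w 0 = 0 := by simp [zc]

lemma zc_true (w : List Bool) (i : ℕ) : zc (true :: w) (i + 1) = zc w i := by
  unfold zc
  rw [Finset.card_filter, Finset.card_filter, Finset.sum_range_succ']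
  simp

lemma zc_false (w : List Bool) (i : ℕ) : zc (false :: w) (i + 1) = zc w i + 1 := by
  unfold zc
  rw [Finset.card_filter, Finset.card_filter, Finset.sum_range_succ']
  simp

lemma bk_true (w : List Bool) (j : ℕ) :
    bk (true :: w) j = (if j = 0 then 1 else 0) + bk w j := by
  unfold bk
  rw [Finset.card_filter, Finset.card_filter, List.length_cons, Finset.sum_range_succ', add_comm]
  simp only [List.getD_cons_succ, List.getD_cons_zero, zc_true, zc_zero, true_and]
  congr 1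
  exact if_congr (by omega) rfl rfl

lemma bk_false (w : List Bool) (j : ℕ) :
    bk (false :: w) j = if j = 0 then 0 else bk w (j - 1) := by
  unfold bk
  rw [Finset.card_filter, List.length_cons, Finset.sum_range_succ']
  simp only [List.getD_cons_succ, List.getD_cons_zero, zc_false, zc_zero, Bool.false_eq_true,
    false_and, if_false, add_zero]
  rcases Nat.eq_zero_or_pos j with h | h
  · subst h
    rw [if_pos rfl]
    refine Finset.sum_eq_zero fun i _ => ?_
    exact if_neg (by omega)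
  · rw [if_neg (by omega), Finset.card_filter]
    refine Finset.sum_congr rfl fun i _ => ?_
    exact if_congr (and_congr_right fun _ => by omega) rfl rfl

lemma sx_zero (w : List Bool) : sx w 0 = 0 := by simp [sx]

lemma sx_true (w : List Bool) (j : ℕ) :
    sx (true :: w) (j + 1) = 1 + sx w (j + 1) := by
  unfold sx
  rw [Finset.card_filter, Finset.card_filter, List.length_cons, Finset.sum_range_succ', add_comm]
  simp only [zc_true, zc_zero]
  congr 1

lemma sx_false (w : List Bool) (j : ℕ) :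
    sx (false :: w) (j + 1) = (if 0 < j then 1 else 0) + sx w j := by
  unfold sx
  rw [Finset.card_filter, Finset.card_filter, List.length_cons, Finset.sum_range_succ', add_comm]
  simp only [zc_false, zc_zero]
  congr 1
  · exact if_congr (by omega) rfl rfl
  · refine Finset.sum_congr rfl fun i _ => ?_
    exact if_congr (by omega) rfl rfl

lemma bk_rep (n : ℕ) (w : List Bool) (j : ℕ) :
    bk (List.replicate n true ++ false :: w) j = if j = 0 then n else bk w (j - 1) := by
  induction n with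
  | zero => rw [List.replicate_zero, List.nil_append, bk_false]
  | succ n ih =>
    rw [List.replicate_succ, List.cons_append, bk_true, ih]
    split_ifs <;> omega

lemma sx_rep (n : ℕ) (w : List Bool) (j : ℕ) :
    sx (List.replicate n true ++ false :: w) (j + 1) = n + ((if 0 < j then 1 else 0) + sx w j) := by
  induction n with
  | zero => rw [List.replicate_zero, List.nil_append, sx_false, zero_add]
  | succ n ih =>
    rw [List.replicate_succ, List.cons_append, sx_true, ih]
    omega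

lemma ublk_cons (n : ℕ) (L : List ℕ) (y : List Bool) :
    ublk (n :: L) ++ y = List.replicate n true ++ false :: (ublk L ++ y) := by
  unfold ublk
  rw [List.flatMap_cons, List.append_assoc, List.append_assoc]
  rfl

lemma bk_ublk (L : List ℕ) (y : List Bool) : ∀ j < L.length, bk (ublk L ++ y) j = L.getD j 0 := by
  induction L with
  | nil => intro j hj; simp at hj
  | cons n L ih =>
    intro j hj
    rw [ublk_cons, bk_rep]
    cases j with
    | zero => simp
    | succ j =>
      rw [if_neg (by omega), Nat.add_sub_cancel, List.getD_cons_succ]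
      exact ih j (by simpa using hj)

lemma length_ublk_cons (n : ℕ) (L : List ℕ) :
    (ublk (n :: L)).length = n + 1 + (ublk L).length := by
  unfold ublk
  rw [List.flatMap_cons, List.length_append, List.length_append, List.length_replicate]
  rfl

lemma sx_ublk (L : List ℕ) (y : List Bool) : ∀ n : ℕ,
    sx (ublk (n :: L) ++ y) (L.length + 1) + 1 = (ublk (n :: L)).length := by
  induction L with
  | nil =>
    intro n
    rw [ublk_cons, List.length_nil, sx_rep, if_neg (lt_irrefl _), sx_zero, length_ublk_cons]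
    simp [ublk]
  | cons m L ih =>
    intro n
    rw [ublk_cons, List.length_cons, sx_rep, if_pos (Nat.succ_pos _), length_ublk_cons, ← ih m]
    omega

/-! ### Computability -/

lemma cq_nbit {e : Fn} (he : Cp e) : Cq (fun x v => ¬ x.getD (e x v) false = true) :=
  (Cq.bit he).not

lemma cp_zc {e : Fn} (he : Cp e) : Cp (fun x v => zc x (e x v)) :=
  Cp.count (P := fun x _ l => ¬ x.getD l false = true) he (cq_nbit (Cp.var 0))

lemma cp_bk {e : Fn} (he : Cp e) : Cp (fun x v => bk x (e x v)) :=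
  Cp.count (P := fun x v i => x.getD i false = true ∧ zc x i = e x v) Cp.len
    ((Cq.bit (Cp.var 0)).and (Cq.eq (cp_zc (Cp.var 0)) (he.rename (· + 1))))

lemma cp_sx {e : Fn} (he : Cp e) : Cp (fun x v => sx x (e x v)) :=
  Cp.count (P := fun x v i => zc x (i + 1) < e x v) Cp.len
    (Cq.lt (cp_zc (Cp.var 0).succ) (he.rename (· + 1)))

/-! ### Powers, with the base as data -/

lemma cq_isP' {B t : Fn} (hB : Cp B) (ht : Cp t) : Cq (fun x v => IsP (B x v) (t x v)) := by
  refine Cq.comp2 (g := fun _ B t => IsP B t) ?_ hB ht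
  refine (Cq.le (Cp.const 1) (Cp.var 1)).and (Cq.all' (P := fun _ v d => 1 < d → v 1 % d = 0 →
    d % v 0 = 0) (Cp.var 1).succ ?_)
  exact (Cq.lt (Cp.const 1) (Cp.var 0)).imp
    ((Cq.eq ((Cp.var 2).mod (Cp.var 0)) (Cp.const 0)).imp
      (Cq.eq ((Cp.var 0).mod (Cp.var 1)) (Cp.const 0)))

lemma cp_pw' {B N i : Fn} (hB : Cp B) (hN : Cp N) (hi : Cp i) :
    Cp (fun x v => pw (B x v) (N x v) (i x v)) := by
  classical
  refine Cp.comp3 (g := fun _ B N i => pw B N i) ?_ hB hN hi
  refine Cp.sum' (f := fun _ v t => if IsP (v 0) t ∧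
    ((Finset.range t).filter (fun s => IsP (v 0) s)).card = v 2 then t else 0) (Cp.var 1).succ ?_
  refine Cp.ite ((cq_isP' (Cp.var 1) (Cp.var 0)).and (Cq.eq ?_ (Cp.var 3))) (Cp.var 0) (Cp.const 0)
  exact Cp.count (P := fun _ v s => IsP (v 1) s) (Cp.var 0) (cq_isP' (Cp.var 2) (Cp.var 0))

/-! ### The rules, with the machine as data -/

lemma cp_sc' {B Q ty d j q g h : Fn} (hB : Cp B) (hQ : Cp Q) (ht : Cp ty) (hd : Cp d) (hj : Cp j)
    (hq : Cp q) (hg : Cp g) (hh : Cp h) :
    Cp (fun x v => sc (B x v) (Q x v) (ty x v) (d x v) (j x v) (q x v) (g x v) (h x v)) :=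
  ht.add ((Cp.const 8).mul (hd.add ((Cp.const 2).mul (hg.add (hB.mul
    (hh.add (hB.mul (hq.add (hQ.mul hj)))))))))

/-- a transition table given by its entries -/
def tab (D : ℕ) (a b c d e : ℕ → ℕ) : NTM :=
  (List.range D).map (fun t => (a t, b t, c t, d t, decide (e t = 1)))

lemma tab_get (D : ℕ) (a b c d e : ℕ → ℕ) (t : ℕ) :
    (tab D a b c d e)[t]? = if t < D then some (a t, b t, c t, d t, decide (e t = 1)) else none := by
  unfold tab
  rw [List.getElem?_map]
  by_cases h : t < D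
  · rw [if_pos h, List.getElem?_range h]; rfl
  · rw [if_neg h, List.getElem?_eq_none (by rw [List.length_range]; omega)]; rfl

theorem c5_ruleW {B Q k D : List Bool → ℕ} {a b c' d' e' : List Bool → ℕ → ℕ}
    (hB : Cp (fun x _ => B x)) (hQ : Cp (fun x _ => Q x)) (hk : Cp (fun x _ => k x))
    (hD : Cp (fun x _ => D x)) (ha : Cp (fun x v => a x (v 0))) (hb : Cp (fun x v => b x (v 0)))
    (hc' : Cp (fun x v => c' x (v 0))) (hd' : Cp (fun x v => d' x (v 0)))
    (he' : Cp (fun x v => e' x (v 0))) :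
    C5 (fun x v => ruleV (tab (D x) (a x) (b x) (c' x) (d' x) (e' x)) (B x) (Q x) (k x) (v 0)) := by
  have c := fun n => Cp.const n
  have hB1 : Cp (fun x _ => B x - 1) := hB.sub (c 1)
  have hty : Cp (fun _ v => v 0 % 16) := (Cp.var 0).mod (c 16)
  have hd : Cp (fun _ v => v 0 / 16 % 2) := ((Cp.var 0).div (c 16)).mod (c 2)
  have hg : Cp (fun x v => v 0 / 32 % B x) := ((Cp.var 0).div (c 32)).mod hB
  have hh : Cp (fun x v => v 0 / (32 * B x) % B x) := ((Cp.var 0).div ((c 32).mul hB)).mod hB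
  have hq : Cp (fun x v => v 0 / (32 * B x * B x) % Q x) :=
    ((Cp.var 0).div (((c 32).mul hB).mul hB)).mod hQ
  have hj : Cp (fun x v => v 0 / (32 * B x * B x * Q x) % k x) :=
    ((Cp.var 0).div ((((c 32).mul hB).mul hB).mul hQ)).mod hk
  have ht : Cp (fun x v => v 0 / (32 * B x * B x * Q x * k x)) :=
    (Cp.var 0).div (((((c 32).mul hB).mul hB).mul hQ).mul hk)
  have hX : Cp (fun x _ => 2 * k x) := (c 2).mul hk
  have hR : Cp (fun x _ => 2 * k x + 1) := hX.add (c 1)
  have he : Cp (fun x _ => 2 * k x + 2) := hX.add (c 2)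
  have hf : Cp (fun x _ => 2 * k x + 3) := hX.add (c 3)
  have hbh : Cp (fun x v => 2 * (v 0 / (32 * B x * B x * Q x) % k x) + v 0 / 16 % 2) :=
    ((c 2).mul hj).add hd
  have hah : Cp (fun x v => 2 * (v 0 / (32 * B x * B x * Q x) % k x) + (1 - v 0 / 16 % 2)) :=
    ((c 2).mul hj).add ((c 1).sub hd)
  have e : ∀ t : ℕ, Cq (fun _ v => v 0 % 16 = t) := fun t => Cq.eq hty (c t)
  have s := fun (ty : ℕ) {d j q g h : Fn} (hd : Cp d) (hj : Cp j) (hq : Cp q) (hg : Cp g)
    (hh : Cp h) => cp_sc' hB hQ (c ty) hd hj hq hg hh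
  have dead : C5 (fun x _ => (sc (B x) (Q x) 7 0 0 0 0 0, sc (B x) (Q x) 7 0 0 0 0 0,
      2 * k x + 2, 2 * k x + 2, 2 * k x + 3)) :=
    C5.mk (s 7 (c 0) (c 0) (c 0) (c 0) (c 0)) (s 7 (c 0) (c 0) (c 0) (c 0) (c 0)) he he hf
  have h1h : Cq (fun x v => 1 ≤ v 0 / (32 * B x) % B x) := Cq.le (c 1) hh
  have h1g : Cq (fun x v => 1 ≤ v 0 / 32 % B x) := Cq.le (c 1) hg
  refine C5.ite (e 0) ?_ (C5.ite (e 1) ?_ (C5.ite (e 2) ?_ (C5.ite (e 3) ?_ (C5.ite (e 4) ?_
    (C5.ite (e 5) ?_ (C5.ite (e 6) ?_ (C5.ite (e 7) ?_ (C5.ite (e 8) ?_ (C5.ite (e 9) ?_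
    (C5.ite (e 10) ?_ (C5.ite (e 11) ?_ (C5.ite (e 12) ?_ (C5.ite (e 13) ?_ (C5.ite (e 14) ?_
    dead))))))))))))))
  · have ta : Cp (fun x v => a x (v 0 / (32 * B x * B x * Q x * k x))) :=
      Cp.comp1 (g := fun x i => a x i) ha ht
    have tb : Cp (fun x v => b x (v 0 / (32 * B x * B x * Q x * k x))) :=
      Cp.comp1 (g := fun x i => b x i) hb ht
    have tc : Cp (fun x v => c' x (v 0 / (32 * B x * B x * Q x * k x))) :=
      Cp.comp1 (g := fun x i => c' x i) hc' ht
    have td : Cp (fun x v => d' x (v 0 / (32 * B x * B x * Q x * k x))) :=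
      Cp.comp1 (g := fun x i => d' x i) hd' ht
    have te : Cp (fun x v => e' x (v 0 / (32 * B x * B x * Q x * k x))) :=
      Cp.comp1 (g := fun x i => e' x i) he' ht
    have tr : Cp (fun x v => if e' x (v 0 / (32 * B x * B x * Q x * k x)) = 1 then 0 else 1) :=
      Cp.ite (Cq.eq te (c 1)) (c 0) (c 1)
    refine (C5.ite (Cq.lt ht hD) (C5.mk (s 0 (c 0) hj ta tb.succ (c 0))
      (s 1 tr hj tc td.succ (c 0)) he he hf) dead).congr fun x v => ?_
    rw [tab_get]
    by_cases hlt : v 0 / (32 * B x * B x * Q x * k x) < D x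
    · rw [if_pos hlt, if_pos hlt]
      simp only [decide_eq_true_eq]
    · rw [if_neg hlt, if_neg hlt]
  · exact C5.mk (s 1 hd hj hq hg (c 0)) (s 1 hd hj hq hg hB1) hbh hX hf
  · exact C5.ite h1h (C5.mk (s 1 hd hj hq hg hh) (s 1 hd hj hq hg (hh.sub (c 1))) hR hX hf) dead
  · exact C5.mk (s 1 hd hj hq hg (c 0)) (s 2 hd hj hq hg (c 0)) he he hbh
  · exact C5.mk (s 2 hd hj hq hg (c 0)) (s 2 hd hj hq hg (c 0)) hX hbh hf
  · exact C5.mk (s 2 hd hj hq hg (c 0)) (s 3 hd hj hq hg (c 0)) he he hX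
  · exact C5.ite h1g (C5.mk (s 3 hd hj hq hg (c 0)) (s 3 hd hj hq (hg.sub (c 1)) (c 0))
      hR hbh hf) dead
  · exact C5.mk (s 3 hd hj hq (c 0) (c 0)) (s 4 hd hj hq (c 0) (c 0)) he he hf
  · exact C5.ite (Cq.lt (hh.add (c 1)) hB) (C5.mk (s 4 hd hj hq (c 0) hh)
      (s 4 hd hj hq (c 0) (hh.add (c 1))) hah hR hf) dead
  · exact C5.mk (s 4 hd hj hq (c 0) hB1) (s 4 hd hj hq (c 0) (c 0)) hah hX hf
  · exact C5.ite h1h (C5.mk (s 4 hd hj hq (c 0) hh) (s 5 hd hj hq (c 0) hh) he he hah) dead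
  · exact C5.ite (Cq.eq hd (c 0))
      (C5.ite (Cq.lt (hj.add (c 1)) hk) (C5.mk (s 4 (c 0) hj hq (c 0) (c 0))
        (s 4 (c 0) (hj.add (c 1)) hq (c 0) (c 0)) he he hah) dead)
      (C5.ite (Cq.le (c 1) hj) (C5.mk (s 4 (c 1) hj hq (c 0) (c 0))
        (s 4 (c 1) (hj.sub (c 1)) hq (c 0) (c 0)) he he hah) dead)
  · exact C5.mk (s 5 hd hj hq (c 0) hh) (s 5 hd hj hq (c 0) hh) hX hah hf
  · exact C5.mk (s 5 hd hj hq (c 0) hh) (s 0 (c 0) hj hq hh (c 0)) he he hX
  · exact C5.mk (s 0 (c 0) hj (c 1) hg (c 0)) (s 6 (c 0) (c 0) (c 0) (c 0) (c 0)) he he hf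

lemma length_tab (D : ℕ) (a b c d e : ℕ → ℕ) : (tab D a b c d e).length = D := by
  unfold tab; simp

theorem ctokW {B Q k D g0 : List Bool → ℕ} {a b c' d' e' : List Bool → ℕ → ℕ}
    (hB : Cp (fun x _ => B x)) (hQ : Cp (fun x _ => Q x)) (hk : Cp (fun x _ => k x))
    (hD : Cp (fun x _ => D x)) (ha : Cp (fun x v => a x (v 0))) (hb : Cp (fun x v => b x (v 0)))
    (hc' : Cp (fun x v => c' x (v 0))) (hd' : Cp (fun x v => d' x (v 0)))
    (he' : Cp (fun x v => e' x (v 0))) (hg : Cp (fun x _ => g0 x)) :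
    CTok (fun x => tokV (tab (D x) (a x) (b x) (c' x) (d' x) (e' x)) (B x) (Q x) (k x) (g0 x)) := by
  have c := fun n => Cp.const n
  obtain ⟨h1, h2, h3, h4, h5⟩ := c5_ruleW hB hQ hk hD ha hb hc' hd' he'
  exact {
    ns := ((((c 16).mul hB).mul hB).mul hQ).mul hk
    nc := ((c 2).mul hk).add (c 4)
    r := (((((((c 32).mul hB).mul hB).mul hQ).mul hk)).mul hD.succ).congr fun x v => by
      unfold tokV; rw [length_tab]
    p0 := cp_sc' hB hQ (c 0) (c 0) (c 0) (c 0) (hg.add (c 1)) (c 0)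
    acc := cp_sc' hB hQ (c 6) (c 0) (c 0) (c 0) (c 0) (c 0)
    e := ((c 2).mul hk).add (c 2)
    f := ((c 2).mul hk).add (c 3)
    rp := h1
    rq := h2
    rx := h3
    ry := h4
    rl := h5 }

/-! ### Parsing -/

def nbW (w : List Bool) : ℕ := 5 + 5 * bk w 4

def NW (w : List Bool) : ℕ := bk w (nbW w)

def stW (w : List Bool) : ℕ := sx w (nbW w + 1) + 1

def tW (w : List Bool) (i : ℕ) : ℕ :=
  if i < w.length - stW w then (w.getD (stW w + i) false).toNat else 2

def eW (s : ℕ) (w : List Bool) (t : ℕ) : ℕ := bk w (5 + 5 * t + s)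

def dW (w : List Bool) : NTM := tab (bk w 4) (eW 0 w) (eW 1 w) (eW 2 w) (eW 3 w) (eW 4 w)

noncomputable def encW (w : List Bool) (s n : ℕ) : ℕ :=
  ∑ i ∈ Finset.range n, (tW w (s + i) + 1) * pw (bk w 0) (NW w) i

def lW (w : List Bool) : ℕ := bk w 2 * (w.length - stW w + 1) / bk w 3 + 1

noncomputable def c0W (w : List Bool) (s : ℕ) : ℕ :=
  if s < 2 * bk w 3 then
    (if s = 1 then encW w 1 (lW w - 1) else if s % 2 = 1 then encW w (s / 2 * lW w) (lW w)
      else 0)
  else if s = 2 * bk w 3 + 1 then (2 * bk w 3 + 3) * bk w 0 * NW w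
  else if s = 2 * bk w 3 + 2 then 1
  else 0

noncomputable def netW (w : List Bool) : Net :=
  (tokV (dW w) (bk w 0) (bk w 1) (bk w 3) (tW w 0)).net (c0W w)
    (20 * bk w 0 * NW w * (NW w + 1))

lemma cp_bkc (n : ℕ) : Cp (fun x _ => bk x n) := cp_bk (Cp.const n)

lemma cp_nbW : Cp (fun x _ => nbW x) := (Cp.const 5).add ((Cp.const 5).mul (cp_bkc 4))

lemma cp_NW : Cp (fun x _ => NW x) := cp_bk cp_nbW

lemma cp_stW : Cp (fun x _ => stW x) := (cp_sx cp_nbW.succ).succ

lemma cp_tW {e : Fn} (he : Cp e) : Cp (fun x v => tW x (e x v)) :=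
  Cp.ite (Cq.lt he (Cp.len.sub cp_stW)) (Cp.bit (cp_stW.add he)) (Cp.const 2)

lemma cp_eW (s : ℕ) : Cp (fun x v => eW s x (v 0)) :=
  cp_bk (((Cp.const 5).add ((Cp.const 5).mul (Cp.var 0))).add (Cp.const s))

lemma cp_encW {s n : Fn} (hs : Cp s) (hn : Cp n) :
    Cp (fun x v => encW x (s x v) (n x v)) := by
  refine Cp.comp2 (g := fun x s n => encW x s n) ?_ hs hn
  refine Cp.sum' (f := fun x v i => (tW x (v 0 + i) + 1) * pw (bk x 0) (NW x) i) (Cp.var 1) ?_
  exact ((cp_tW ((Cp.var 1).add (Cp.var 0))).succ).mul (cp_pw' (cp_bkc 0) cp_NW (Cp.var 0))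

lemma cp_lW : Cp (fun x _ => lW x) :=
  (((cp_bkc 2).mul ((Cp.len.sub cp_stW).succ)).div (cp_bkc 3)).succ

lemma cp_c0W : Cp (fun x v => c0W x (v 0)) := by
  have h2 : Cp (fun x _ => 2 * bk x 3) := (Cp.const 2).mul (cp_bkc 3)
  have v0 := Cp.var 0
  exact Cp.ite (Cq.lt v0 h2) (Cp.ite (Cq.eq v0 (Cp.const 1))
      (cp_encW (Cp.const 1) (cp_lW.sub (Cp.const 1)))
      (Cp.ite (Cq.eq (v0.mod (Cp.const 2)) (Cp.const 1))
        (cp_encW ((v0.div (Cp.const 2)).mul cp_lW) cp_lW) (Cp.const 0)))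
    (Cp.ite (Cq.eq v0 (h2.add (Cp.const 1))) (((h2.add (Cp.const 3)).mul (cp_bkc 0)).mul cp_NW)
      (Cp.ite (Cq.eq v0 (h2.add (Cp.const 2))) (Cp.const 1) (Cp.const 0)))

/-! ### Correctness -/

/-- all unary blocks -/
def allB (δ : NTM) (B Q c k N : ℕ) : List ℕ := ([B, Q, c, k, δ.length] ++ nums δ) ++ [N]

lemma word_eq (δ : NTM) (B Q c k N : ℕ) (x : List Bool) :
    hdrU δ B Q c k ++ (List.replicate N true ++ false :: x) = ublk (allB δ B Q c k N) ++ x := by
  unfold hdrU allB ublk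
  rw [List.flatMap_append (xs := [B, Q, c, k, δ.length] ++ nums δ), List.append_assoc]
  congr 1
  rw [List.flatMap_cons, List.flatMap_nil, List.append_nil, List.append_assoc]
  rfl

lemma length_nums (δ : NTM) : (nums δ).length = 5 * δ.length := by
  unfold nums
  induction δ with
  | nil => rfl
  | cons t δ ih =>
    rw [List.flatMap_cons, List.length_append, ih, List.length_cons]
    simp
    omega

lemma length_allB (δ : NTM) (B Q c k N : ℕ) : (allB δ B Q c k N).length = 5 + 5 * δ.length + 1 := by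
  unfold allB
  rw [List.length_append, List.length_append, length_nums]
  rfl

lemma nums_get (δ : NTM) : ∀ t < δ.length, ∀ s < 5, (nums δ).getD (5 * t + s) 0 =
    ([(δ.getD t (0, 0, 0, 0, false)).1, (δ.getD t (0, 0, 0, 0, false)).2.1,
      (δ.getD t (0, 0, 0, 0, false)).2.2.1, (δ.getD t (0, 0, 0, 0, false)).2.2.2.1,
      (δ.getD t (0, 0, 0, 0, false)).2.2.2.2.toNat]).getD s 0 := by
  induction δ with
  | nil => intro t ht; simp at ht
  | cons u δ ih =>
    intro t ht s hs
    have e : nums (u :: δ) = [u.1, u.2.1, u.2.2.1, u.2.2.2.1, u.2.2.2.2.toNat] ++ nums δ := rfl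
    rw [e]
    cases t with
    | zero =>
      rw [List.getD_append _ _ _ _ (by simpa using hs)]
      simp
    | succ t =>
      rw [List.getD_append_right _ _ _ _ (by simp; omega)]
      have e2 : 5 * (t + 1) + s - [u.1, u.2.1, u.2.2.1, u.2.2.2.1, u.2.2.2.2.toNat].length =
          5 * t + s := by simp; omega
      rw [e2, List.getD_cons_succ]
      exact ih t (by simpa using ht) s hs

section correct

variable (δ : NTM) (B Q c k N : ℕ) (x : List Bool)

lemma bk_all (j : ℕ) (hj : j < 5 + 5 * δ.length + 1) :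
    bk (ublk (allB δ B Q c k N) ++ x) j = (allB δ B Q c k N).getD j 0 :=
  bk_ublk _ _ j (by rw [length_allB]; exact hj)

lemma bk0 : bk (ublk (allB δ B Q c k N) ++ x) 0 = B := by
  rw [bk_all δ B Q c k N x 0 (by omega)]; rfl

lemma bk1 : bk (ublk (allB δ B Q c k N) ++ x) 1 = Q := by
  rw [bk_all δ B Q c k N x 1 (by omega)]; rfl

lemma bk2 : bk (ublk (allB δ B Q c k N) ++ x) 2 = c := by
  rw [bk_all δ B Q c k N x 2 (by omega)]; rfl

lemma bk3 : bk (ublk (allB δ B Q c k N) ++ x) 3 = k := by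
  rw [bk_all δ B Q c k N x 3 (by omega)]; rfl

lemma bk4 : bk (ublk (allB δ B Q c k N) ++ x) 4 = δ.length := by
  rw [bk_all δ B Q c k N x 4 (by omega)]; rfl

lemma nbW_eq : nbW (ublk (allB δ B Q c k N) ++ x) = 5 + 5 * δ.length := by
  unfold nbW; rw [bk4]

lemma NW_eq : NW (ublk (allB δ B Q c k N) ++ x) = N := by
  unfold NW
  rw [nbW_eq, bk_all δ B Q c k N x _ (by omega)]
  unfold allB
  rw [List.getD_append_right _ _ _ _ (by
    rw [List.length_append, length_nums]; simp)]
  have : 5 + 5 * δ.length - ([B, Q, c, k, δ.length] ++ nums δ).length = 0 := by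
    rw [List.length_append, length_nums]; simp
  rw [this]; rfl

lemma eW_eq (s t : ℕ) (ht : t < δ.length) (hs : s < 5) :
    eW s (ublk (allB δ B Q c k N) ++ x) t =
    ([(δ.getD t (0, 0, 0, 0, false)).1, (δ.getD t (0, 0, 0, 0, false)).2.1,
      (δ.getD t (0, 0, 0, 0, false)).2.2.1, (δ.getD t (0, 0, 0, 0, false)).2.2.2.1,
      (δ.getD t (0, 0, 0, 0, false)).2.2.2.2.toNat]).getD s 0 := by
  unfold eW
  rw [bk_all δ B Q c k N x _ (by omega), ← nums_get δ t ht s hs]
  unfold allB
  rw [List.getD_append _ _ _ _ (by rw [List.length_append, length_nums]; simp; omega),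
    List.getD_append_right _ _ _ _ (by simp; omega)]
  congr 1
  simp
  omega

lemma dW_eq : dW (ublk (allB δ B Q c k N) ++ x) = δ := by
  apply List.ext_getElem?
  intro t
  unfold dW
  rw [tab_get, bk4]
  by_cases ht : t < δ.length
  · rw [if_pos ht, eW_eq δ B Q c k N x 0 t ht (by omega), eW_eq δ B Q c k N x 1 t ht (by omega),
      eW_eq δ B Q c k N x 2 t ht (by omega), eW_eq δ B Q c k N x 3 t ht (by omega),
      eW_eq δ B Q c k N x 4 t ht (by omega)]
    have e1 : δ[t]? = some (δ.getD t (0, 0, 0, 0, false)) := by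
      rw [List.getD_eq_getElem?_getD, List.getElem?_eq_getElem ht]
      rfl
    rw [e1]
    generalize δ.getD t (0, 0, 0, 0, false) = u
    obtain ⟨u1, u2, u3, u4, u5⟩ := u
    cases u5 <;> rfl
  · rw [if_neg ht, List.getElem?_eq_none (by omega)]

lemma stW_eq : stW (ublk (allB δ B Q c k N) ++ x) = (ublk (allB δ B Q c k N)).length := by
  unfold stW
  rw [nbW_eq]
  have : allB δ B Q c k N = B :: (([Q, c, k, δ.length] ++ nums δ) ++ [N]) := rfl
  rw [this]
  have := sx_ublk (([Q, c, k, δ.length] ++ nums δ) ++ [N]) x B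
  rw [← this]
  congr 2
  rw [List.length_append, List.length_append, length_nums]
  simp
  omega

lemma tW_eq : tW (ublk (allB δ B Q c k N) ++ x) = tape0 x := by
  funext i
  unfold tW tape0
  rw [stW_eq, List.length_append, Nat.add_sub_cancel_left,
    List.getD_append_right _ _ _ _ (Nat.le_add_right _ _), Nat.add_sub_cancel_left]

lemma lW_eq : lW (ublk (allB δ B Q c k N) ++ x) = c * (x.length + 1) / k + 1 := by
  unfold lW
  rw [stW_eq, List.length_append, Nat.add_sub_cancel_left, bk2, bk3]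

lemma encW_eq (hp : B.Prime) (s n : ℕ) (h : B ^ n ≤ N) :
    encW (ublk (allB δ B Q c k N) ++ x) s n = encT B (tape0 x) s n := by
  unfold encW encT
  rw [tW_eq, NW_eq, bk0]
  refine Finset.sum_congr rfl fun i hi => ?_
  rw [pw_eq hp ((Nat.pow_le_pow_right hp.pos (Finset.mem_range.1 hi).le).trans h)]

lemma netW_eq (hp : B.Prime) (h : B ^ (c * (x.length + 1) / k + 1) ≤ N) :
    (netW (ublk (allB δ B Q c k N) ++ x)).toInst = theInst δ B Q c k N x := by
  have h1 : B ^ (c * (x.length + 1) / k + 1 - 1) ≤ N :=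
    (Nat.pow_le_pow_right hp.pos (Nat.sub_le _ _)).trans h
  have e : c0W (ublk (allB δ B Q c k N) ++ x) =
      c0V B k (c * (x.length + 1) / k + 1) ((2 * k + 3) * B * N) (tape0 x) := by
    funext s
    unfold c0W c0V
    rw [lW_eq, bk3, bk0, NW_eq, encW_eq δ B Q c k N x hp _ _ h1,
      encW_eq δ B Q c k N x hp _ _ h]
  unfold netW theInst
  rw [e, dW_eq, bk0, bk1, bk3, tW_eq, NW_eq]

end correct

end K2

open K2 K1 Pool.Agent.H54.PT in
theorem red_univ : ∃ F : List Bool → Inst, N68a2faeb.IsPolyTime F ∧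
    ∀ (δ : NTM) (B Q c k N : ℕ) (x : List Bool), B.Prime → 0 < k →
      B ^ (c * (x.length + 1) / k + 1) ≤ N →
      F (hdrU δ B Q c k ++ (List.replicate N true ++ false :: x)) = theInst δ B Q c k N x := by
  refine ⟨fun w => (netW w).toInst, isPolyTime (de_toInst (cnet (ctokW (cp_bkc 0) (cp_bkc 1)
    (cp_bkc 3) (cp_bkc 4) (cp_eW 0) (cp_eW 1) (cp_eW 2) (cp_eW 3) (cp_eW 4)
    (cp_tW (Cp.const 0))) cp_c0W ?_)), fun δ B Q c k N x hp _ h => ?_⟩
  · exact (((Cp.const 20).mul (cp_bkc 0)).mul cp_NW).mul cp_NW.succ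
  · show (netW _).toInst = _
    rw [word_eq]
    exact netW_eq δ B Q c k N x hp h

end Pool.Agent.helper66.JS
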