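import Pool.Agent.helper66.JS.Defs3

/-!
# Module N1: soundness of the sweeping machine
-/

set_option autoImplicit false

namespace Pool.Agent.helper66.JS

open Turing Finset

namespace N1

section

variable {σ : Type} [Encodable σ]

omit [Encodable σ] in
lemma CRun.snoc {M : List (σ × Op × σ)} {bd n : ℕ} {z : σ × (ℕ → ℕ)} {p q : σ} {o : Op}
    {c c' : ℕ → ℕ} (h : CRun M bd n z (p, c)) (hM : (p, o, q) ∈ M) (ho : o.Ok c c')
    (hb : ∀ j, c' j < bd) : CRun M bd (n + 1) z (q, c') := by
  generalize hw : (p, c) = w at h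
  induction h with
  | refl z =>
    subst hw
    exact CRun.step 0 p q o c c' _ hM ho hb (CRun.refl _)
  | step n p1 q1 o1 c1 c1' z1 hM1 ho1 hb1 _ ih =>
    exact CRun.step (n + 1) p1 q1 o1 c1 c1' _ hM1 ho1 hb1 (ih hw)

/-- value of counter `j` on a tape with `n` bits -/
def V (R n : ℕ) (tape : ℕ → ℕ) (j : ℕ) : ℕ :=
  ∑ i ∈ range n, if i % R = j then tape (i + 1) * 2 ^ (i / R) else 0

lemma V_upd (R n : ℕ) (tape : ℕ → ℕ) (j y g : ℕ) (hy : y < n) :
    V R n (Function.update tape (y + 1) g) j +
      (if y % R = j then tape (y + 1) * 2 ^ (y / R) else 0) =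
    V R n tape j + (if y % R = j then g * 2 ^ (y / R) else 0) := by
  unfold V
  rw [← Finset.add_sum_erase _ _ (Finset.mem_range.2 hy),
    ← Finset.add_sum_erase (range n) (fun i => if i % R = j then tape (i + 1) * 2 ^ (i / R) else 0)
      (Finset.mem_range.2 hy)]
  have e : ∑ i ∈ (range n).erase y,
      (if i % R = j then Function.update tape (y + 1) g (i + 1) * 2 ^ (i / R) else 0) =
      ∑ i ∈ (range n).erase y, (if i % R = j then tape (i + 1) * 2 ^ (i / R) else 0) := by
    refine Finset.sum_congr rfl fun i hi => ?_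
    have : i ≠ y := (Finset.mem_erase.1 hi).1
    rw [Function.update_of_ne (by omega)]
  rw [e, Function.update_self]
  ring

lemma V_ge (R n : ℕ) (hR : 0 < R) (tape : ℕ → ℕ) (j : ℕ) (hj : R ≤ j) : V R n tape j = 0 := by
  refine Finset.sum_eq_zero fun i _ => ?_
  rw [if_neg]
  have := Nat.mod_lt i hR
  omega

lemma V_lt (R l : ℕ) (hR : 0 < R) (tape : ℕ → ℕ) (h : ∀ i < R * l, tape (i + 1) < 2) (j : ℕ) :
    V R (R * l) tape j < 2 ^ l := by
  by_cases hj : R ≤ j
  · rw [V_ge R _ hR tape j hj]; positivity
  rw [not_le] at hj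
  unfold V
  induction l with
  | zero => simp
  | succ l ih =>
    rw [Nat.mul_succ, Finset.sum_range_add]
    have h1 := ih (fun i hi => h i (by rw [Nat.mul_succ]; omega))
    have h2 : ∑ i ∈ range R, (if (R * l + i) % R = j then
        tape (R * l + i + 1) * 2 ^ ((R * l + i) / R) else 0) ≤ 2 ^ l := by
      rw [Finset.sum_eq_single j]
      · split_ifs
        · have : (R * l + j) / R = l := by
            rw [Nat.mul_add_div hR, Nat.div_eq_of_lt hj, add_zero]
          rw [this]
          have := h (R * l + j) (by rw [Nat.mul_succ]; omega)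
          calc _ ≤ 1 * 2 ^ l := Nat.mul_le_mul_right _ (by omega)
            _ = _ := one_mul _
        · positivity
      · intro i hi hij
        rw [if_neg]
        rw [Nat.mul_add_mod, Nat.mod_eq_of_lt (Finset.mem_range.1 hi)]
        exact hij
      · intro hh; exact absurd (Finset.mem_range.2 hj) hh
    rw [pow_succ]
    omega

/-- number of bits of counter `j` before `y` -/
def cnt (R j y : ℕ) : ℕ := Nat.count (fun i => i % R = j) y

lemma cnt_succ (R j y : ℕ) : cnt R j (y + 1) = cnt R j y + if y % R = j then 1 else 0 := by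
  unfold cnt
  rw [Nat.count_succ]

lemma cnt_eq (R : ℕ) (hR : 0 < R) (j y : ℕ) (h : y % R = j) : cnt R j y = y / R := by
  have hj : j < R := by rw [← h]; exact Nat.mod_lt _ hR
  have key : ∀ y, cnt R j y = y / R + if j < y % R then 1 else 0 := by
    intro y
    have e := Nat.count_modEq_card (b := y) hR j
    unfold cnt
    have e2 : (fun i => i % R = j) = (fun i => i ≡ j [MOD R]) := by
      funext i
      unfold Nat.ModEq
      rw [Nat.mod_eq_of_lt hj]
    simp only [Nat.mod_eq_of_lt hj] at e
    rw [← e]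
    congr 1
  rw [key y, h, if_neg (lt_irrefl _), add_zero]

structure Shape (n : ℕ) (tape : ℕ → ℕ) : Prop where
  h0 : tape 0 = 3
  h1 : ∀ i < n, tape (i + 1) < 2
  h2 : ∀ i, n ≤ i → tape (i + 1) = 2

structure Rel (R : ℕ) (o : Op) (c v : ℕ → ℕ) (e y : ℕ) : Prop where
  ne : ∀ j, j ≠ o.j → v j = c j
  k0 : o.kind = 0 → v o.j = c o.j
  k1 : o.kind = 1 → v o.j + e * 2 ^ (cnt R o.j y) = c o.j + 1
  k2 : o.kind = 2 → v o.j + 1 = c o.j + e * 2 ^ (cnt R o.j y)
  k3 : 2 < o.kind → e = 1

structure InvB (M : List (σ × Op × σ)) (R : ℕ) (p0 : σ) (x : List Bool) (n : ℕ) (p : σ) (C : Conf) :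
    Prop where
  st : C.q = cr p
  sh : Shape n C.tape
  pos : C.pos ≤ n + 1
  run : ∃ k, CRun M (2 ^ (n / R)) k (p0, cx R x) (p, V R n C.tape)
  md : p = p0 ∨ n % R = 0

structure InvC (M : List (σ × Op × σ)) (R : ℕ) (p0 : σ) (x : List Bool) (n : ℕ) (t e y : ℕ)
    (p q : σ) (o : Op) (t0 : ℕ → ℕ) (C : Conf) : Prop where
  st : C.q = cs t e (y % R)
  el : e < 2
  sh : Shape n C.tape
  pos : C.pos = y + 1
  yn : y ≤ n
  tr : M[t]? = some (p, o, q)
  run : ∃ k, CRun M (2 ^ (n / R)) k (p0, cx R x) (p, V R n t0)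
  md : p = p0 ∨ n % R = 0
  agr : ∀ i, y ≤ i → C.tape (i + 1) = t0 (i + 1)
  zer : ∀ i < y, i % R ∈ o.Z → t0 (i + 1) = 0
  rel : Rel R o (V R n t0) (V R n C.tape) e y

def Inv (M : List (σ × Op × σ)) (R : ℕ) (p0 pa : σ) (x : List Bool) (n : ℕ) (C : Conf) : Prop :=
  (C.q = 0 ∧ C.pos = 0 ∧ C.tape = tape0 x) ∨
  (x.length = n + 1 ∧ ((∃ p, InvB M R p0 x n p C) ∨
    (∃ t e y p q o t0, InvC M R p0 x n t e y p q o t0 C) ∨
    (C.q = 1 ∧ n % R = 0 ∧ ∃ c k, CRun M (2 ^ (n / R)) k (p0, cx R x) (pa, c))))

/-- the transitions of the machine -/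
lemma mem_ntmOf (M : List (σ × Op × σ)) (R : ℕ) (p0 pa : σ) (q g q' g' : ℕ) (r : Bool)
    (h : (q, g, q', g', r) ∈ ntmOf M R p0 pa) :
    (q = 0 ∧ g < 2 ∧ q' = cr p0 ∧ g' = 3 ∧ r = true) ∨
    (q = cr pa ∧ g = 3 ∧ q' = 1 ∧ g' = 3 ∧ r = true) ∨
    (∃ p : σ, q = cr p ∧ q' = cr p ∧ g' = g ∧ r = false) ∨
    (∃ t p o s, M[t]? = some (p, o, s) ∧
      ((q = cr p ∧ g = 3 ∧ q' = cs t 1 0 ∧ g' = 3 ∧ r = true) ∨
       (∃ e i, e < 2 ∧ i < R ∧ g < 2 ∧ q = cs t e i ∧ r = true ∧ ¬ (g = 1 ∧ i ∈ o.Z) ∧
         ((e = 1 ∧ i = o.j ∧ o.kind = 1 ∧ q' = cs t g ((i + 1) % R) ∧ g' = 1 - g) ∨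
          (e = 1 ∧ i = o.j ∧ o.kind = 2 ∧ q' = cs t (1 - g) ((i + 1) % R) ∧ g' = 1 - g) ∨
          (¬ (e = 1 ∧ i = o.j ∧ o.kind = 1) ∧ ¬ (e = 1 ∧ i = o.j ∧ o.kind = 2) ∧
            q' = cs t e ((i + 1) % R) ∧ g' = g))) ∨
       (∃ e, e < 2 ∧ (e = 0 ∨ o.kind = 0) ∧ q = cs t e 0 ∧ g = 2 ∧ q' = cr s ∧ g' = 2 ∧
         r = false))) := by
  unfold ntmOf at h
  simp only [List.mem_append, List.mem_cons, List.mem_flatMap, List.mem_map, List.mem_range,
    List.not_mem_nil, or_false, Prod.mk.injEq] at h
  rcases h with ((h | h | h) | ⟨p, hp, g1, hg1, h⟩) | ⟨⟨⟨p, o, s⟩, t⟩, hu, h⟩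
  · left; obtain ⟨rfl, rfl, rfl, rfl, rfl⟩ := h; exact ⟨rfl, by norm_num, rfl, rfl, rfl⟩
  · left; obtain ⟨rfl, rfl, rfl, rfl, rfl⟩ := h; exact ⟨rfl, by norm_num, rfl, rfl, rfl⟩
  · right; left; obtain ⟨rfl, rfl, rfl, rfl, rfl⟩ := h; exact ⟨rfl, rfl, rfl, rfl, rfl⟩
  · right; right; left; obtain ⟨rfl, rfl, rfl, rfl, rfl⟩ := h; exact ⟨p, rfl, rfl, rfl, rfl⟩
  · right; right; right
    have hu' : M[t]? = some (p, o, s) := by
      have := List.mk_mem_zipIdx_iff_getElem?.1 hu
      simpa using this
    refine ⟨t, p, o, s, hu', ?_⟩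
    rcases h with h | h
    · left; obtain ⟨rfl, rfl, rfl, rfl, rfl⟩ := h; exact ⟨rfl, rfl, rfl, rfl, rfl⟩
    · right
      unfold sweepT at h
      simp only [List.mem_append, List.mem_flatMap, List.mem_range] at h
      rcases h with ⟨e, he, i, hi, g1, hg1, h⟩ | ⟨e, he, h⟩
      · left
        split_ifs at h with h1 h2 h3
        · simp at h
        · simp only [List.mem_cons, List.not_mem_nil, or_false, Prod.mk.injEq] at h
          obtain ⟨rfl, rfl, rfl, rfl, rfl⟩ := h
          exact ⟨e, i, he, hi, hg1, rfl, rfl, h1, Or.inl ⟨h2.1, h2.2.1, h2.2.2, rfl, rfl⟩⟩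
        · simp only [List.mem_cons, List.not_mem_nil, or_false, Prod.mk.injEq] at h
          obtain ⟨rfl, rfl, rfl, rfl, rfl⟩ := h
          exact ⟨e, i, he, hi, hg1, rfl, rfl, h1,
            Or.inr (Or.inl ⟨h3.1, h3.2.1, h3.2.2, rfl, rfl⟩)⟩
        · simp only [List.mem_cons, List.not_mem_nil, or_false, Prod.mk.injEq] at h
          obtain ⟨rfl, rfl, rfl, rfl, rfl⟩ := h
          exact ⟨e, i, he, hi, hg1, rfl, rfl, h1, Or.inr (Or.inr ⟨h2, h3, rfl, rfl⟩)⟩
      · right
        split_ifs at h with h1
        · simp only [List.mem_cons, List.not_mem_nil, or_false, Prod.mk.injEq] at h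
          obtain ⟨rfl, rfl, rfl, rfl, rfl⟩ := h
          exact ⟨e, he, h1, rfl, rfl, rfl, rfl, rfl⟩
        · simp at h

lemma cr_ne_cs (p : σ) (t e i : ℕ) : cr p ≠ cs t e i := by
  unfold cr cs; omega

lemma cr_inj {p q : σ} (h : cr p = cr q) : p = q := by
  unfold cr at h
  exact Encodable.encode_injective (by omega)

lemma cs_inj {t e i t' e' i' : ℕ} (h : cs t e i = cs t' e' i') : t = t' ∧ e = e' ∧ i = i' := by
  unfold cs at h
  have h1 : Nat.pair t (Nat.pair e i) = Nat.pair t' (Nat.pair e' i') := by omega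
  rw [Nat.pair_eq_pair, Nat.pair_eq_pair] at h1
  exact h1

lemma two_le_cr (p : σ) : 2 ≤ cr p := by unfold cr; omega

lemma three_le_cs (t e i : ℕ) : 3 ≤ cs t e i := by unfold cs; omega

lemma step_V (R n y : ℕ) (hR : 0 < R) (o : Op) (c tape : ℕ → ℕ) (e g : ℕ) (hy : y < n)
    (hg : tape (y + 1) = g) (he : e < 2) (hg2 : g < 2) (h : Rel R o c (V R n tape) e y) :
    (e = 1 → y % R = o.j → o.kind = 1 →
      Rel R o c (V R n (Function.update tape (y + 1) (1 - g))) g (y + 1)) ∧
    (e = 1 → y % R = o.j → o.kind = 2 →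
      Rel R o c (V R n (Function.update tape (y + 1) (1 - g))) (1 - g) (y + 1)) ∧
    (¬ (e = 1 ∧ y % R = o.j ∧ o.kind = 1) → ¬ (e = 1 ∧ y % R = o.j ∧ o.kind = 2) →
      Rel R o c (V R n (Function.update tape (y + 1) g)) e (y + 1)) := by
  have hc := cnt_succ R o.j y
  refine ⟨?_, ?_, ?_⟩
  · intro he1 hj hk
    have hcy := cnt_eq R hR o.j y hj
    rw [if_pos hj] at hc
    have hv := V_upd R n tape o.j y (1 - g) hy
    rw [if_pos hj, if_pos hj, hg, ← hcy] at hv
    have hk1 := h.k1 hk
    refine ⟨fun j hjj => ?_, fun hk0 => by omega, fun _ => ?_, fun hk0 => by omega,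
      fun hk0 => by omega⟩
    · have hv := V_upd R n tape j y (1 - g) hy
      rw [if_neg (by omega), if_neg (by omega), add_zero, add_zero] at hv
      rw [hv]; exact h.ne j hjj
    · rw [hc, pow_succ]
      subst he1
      interval_cases g <;> simp at hv ⊢ <;> omega
  · intro he1 hj hk
    have hcy := cnt_eq R hR o.j y hj
    rw [if_pos hj] at hc
    have hv := V_upd R n tape o.j y (1 - g) hy
    rw [if_pos hj, if_pos hj, hg, ← hcy] at hv
    have hk2 := h.k2 hk
    refine ⟨fun j hjj => ?_, fun hk0 => by omega, fun hk0 => by omega, fun _ => ?_,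
      fun hk0 => by omega⟩
    · have hv := V_upd R n tape j y (1 - g) hy
      rw [if_neg (by omega), if_neg (by omega), add_zero, add_zero] at hv
      rw [hv]; exact h.ne j hjj
    · rw [hc, pow_succ]
      subst he1
      interval_cases g <;> simp at hv ⊢ <;> omega
  · intro h1 h2
    have hu : Function.update tape (y + 1) g = tape := by
      rw [← hg]; exact Function.update_eq_self _ _
    rw [hu]
    refine ⟨h.ne, h.k0, fun hk => ?_, fun hk => ?_, h.k3⟩
    · have := h.k1 hk
      rw [hc]
      by_cases he1 : e = 1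
      · rw [if_neg (fun hj => h1 ⟨he1, hj, hk⟩), add_zero]; exact this
      · have : e = 0 := by omega
        subst this
        simpa using this
    · have := h.k2 hk
      rw [hc]
      by_cases he1 : e = 1
      · rw [if_neg (fun hj => h2 ⟨he1, hj, hk⟩), add_zero]; exact this
      · have : e = 0 := by omega
        subst this
        simpa using this

lemma inv_step (M : List (σ × Op × σ)) (R : ℕ) (hR : 0 < R) (p0 pa : σ) (h0 : p0 ≠ pa)
    (x : List Bool) (n : ℕ) (hn : n = x.length - 1) (C C' : Conf) (hC : Inv M R p0 pa x n C)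
    (hs : NStep (ntmOf M R p0 pa) C C') : Inv M R p0 pa x n C' := by
  obtain ⟨g', r, hmem, htape, hpos⟩ := hs
  have htr := mem_ntmOf M R p0 pa _ _ _ _ _ hmem
  rcases hC with ⟨hq, hp, ht⟩ | ⟨hx, hC⟩
  · -- start
    rcases htr with h | h | ⟨p, h⟩ | ⟨t, p, o, s, hM, h | ⟨e, i, h⟩ | ⟨e, h⟩⟩
    · obtain ⟨-, hg, hq', hg', hr⟩ := h
      rw [hp, ht] at hg
      have hx : 0 < x.length := by
        by_contra hx
        unfold tape0 at hg
        rw [if_neg hx] at hg
        omega
      rw [hr, if_pos rfl, hp] at hpos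
      right
      refine ⟨by omega, Or.inl ⟨p0, hq', ?_, by omega, ⟨0, ?_⟩, Or.inl rfl⟩⟩
      · rw [htape, hp, ht, hg']
        refine ⟨Function.update_self .., fun i hi => ?_, fun i hi => ?_⟩
        · rw [Function.update_of_ne (by omega)]
          unfold tape0
          rw [if_pos (by omega)]
          exact Bool.toNat_lt _
        · rw [Function.update_of_ne (by omega)]
          unfold tape0
          rw [if_neg (by omega)]
      · have : V R n C'.tape = cx R x := by
          funext j
          unfold V cx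
          rw [← hn]
          refine Finset.sum_congr rfl fun i hi => ?_
          have hlt : i + 1 < x.length := by have := Finset.mem_range.1 hi; omega
          have e1 : C'.tape (i + 1) = (x.getD (i + 1) false).toNat := by
            rw [htape, hp, ht, Function.update_of_ne (by omega)]
            unfold tape0
            rw [if_pos hlt]
          rw [e1]
        rw [this]
        exact CRun.refl _
    · exfalso; have := two_le_cr pa; omega
    · exfalso; have := two_le_cr p; omega
    · exfalso; have := two_le_cr p; omega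
    · exfalso; have := three_le_cs t e i; omega
    · exfalso; have := three_le_cs t e 0; omega
  · rcases hC with ⟨p, hB⟩ | ⟨t, e, y, p, q, o, t0, hB⟩ | ⟨hq, hmod, c, k, hrun⟩
    · -- state cr p
      obtain ⟨st, sh, pos, run, md⟩ := hB
      rcases htr with h | h | ⟨p1, h⟩ | ⟨t, p1, o, s, hM, h | ⟨e, i, h⟩ | ⟨e, h⟩⟩
      · exfalso; have := two_le_cr p; omega
      · obtain ⟨hq, hg, hq', hg', hr⟩ := h
        have hpp : p = pa := cr_inj (st.symm.trans hq)
        subst hpp
        right
        refine ⟨hx, Or.inr (Or.inr ⟨hq', ?_, ?_⟩)⟩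
        · rcases md with md | md
          · exact absurd md.symm h0
          · exact md
        · obtain ⟨k, run⟩ := run
          exact ⟨_, k, run⟩
      · obtain ⟨hq, hq', hg', hr⟩ := h
        have hpp : p = p1 := cr_inj (st.symm.trans hq)
        subst hpp
        have ht : C'.tape = C.tape := by
          rw [htape, hg']; exact Function.update_eq_self _ _
        rw [hr] at hpos
        simp at hpos
        right
        refine ⟨hx, Or.inl ⟨p, hq', by rw [ht]; exact sh, by omega, by rw [ht]; exact run, md⟩⟩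
      · obtain ⟨hq, hg, hq', hg', hr⟩ := h
        have hpp : p = p1 := cr_inj (st.symm.trans hq)
        subst hpp
        have hp0 : C.pos = 0 := by
          by_contra hne
          obtain ⟨i, hi⟩ := Nat.exists_eq_succ_of_ne_zero hne
          rw [hi] at hg
          rcases lt_or_ge i n with hlt | hge
          · have := sh.h1 i hlt
            rw [Nat.succ_eq_add_one] at hg
            omega
          · have := sh.h2 i hge
            rw [Nat.succ_eq_add_one] at hg
            omega
        have ht : C'.tape = C.tape := by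
          rw [htape, hg', ← hg]; exact Function.update_eq_self _ _
        rw [hr, if_pos rfl, hp0] at hpos
        right
        refine ⟨hx, Or.inr (Or.inl ⟨t, 1, 0, p, s, o, C.tape, ?_⟩)⟩
        refine ⟨by rw [hq', Nat.zero_mod], by omega, by rw [ht]; exact sh, by omega, by omega, hM,
          run, md, fun i _ => by rw [ht], fun i hi => by omega, ?_⟩
        rw [ht]
        refine ⟨fun _ _ => rfl, fun _ => rfl, fun _ => ?_, fun _ => ?_, fun _ => rfl⟩
        · simp [cnt]
        · simp [cnt]
      · exfalso; exact cr_ne_cs p t e i (st.symm.trans h.2.2.2.1)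
      · exfalso; exact cr_ne_cs p t e 0 (st.symm.trans h.2.2.1)
    · -- state cs t e y
      obtain ⟨st, el, sh, pos, yn, tr, run, md, agr, zer, rel⟩ := hB
      rcases htr with h | h | ⟨p1, h⟩ | ⟨t', p1, o1, s1, hM, h | ⟨e', i', h⟩ | ⟨e', h⟩⟩
      · exfalso; have := three_le_cs t e (y % R); omega
      · exfalso; exact cr_ne_cs pa t e (y % R) (h.1.symm.trans st)
      · exfalso; exact cr_ne_cs p1 t e (y % R) (h.1.symm.trans st)
      · exfalso; exact cr_ne_cs p1 t e (y % R) (h.1.symm.trans st)
      · obtain ⟨-, -, hg, hq, hr, hZ, h⟩ := h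
        obtain ⟨rfl, rfl, rfl⟩ := cs_inj (st.symm.trans hq)
        have htt : (p, o, q) = (p1, o1, s1) := by
          rw [tr] at hM; exact Option.some.inj hM
        obtain ⟨rfl, rfl, rfl⟩ : p = p1 ∧ o = o1 ∧ q = s1 := by
          simpa [Prod.mk.injEq] using htt
        rw [hr, if_pos rfl, pos] at hpos
        rw [pos] at hg hZ htape h
        have hyn : y < n := by
          by_contra hyn
          have := sh.h2 y (not_lt.1 hyn)
          omega
        set g := C.tape (y + 1) with hgd
        have sv := step_V R n y hR o (V R n t0) C.tape e g hyn hgd.symm el hg rel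
        have hmod : (y % R + 1) % R = (y + 1) % R := by rw [Nat.mod_add_mod]
        rw [hmod] at h
        have hshape : ∀ g'', g'' < 2 → Shape n (Function.update C.tape (y + 1) g'') := by
          intro g'' hg''
          refine ⟨?_, fun i hi => ?_, fun i hi => ?_⟩
          · rw [Function.update_of_ne (by omega)]; exact sh.h0
          · by_cases hiy : i = y
            · subst hiy; rw [Function.update_self]; exact hg''
            · rw [Function.update_of_ne (by omega)]; exact sh.h1 i hi
          · rw [Function.update_of_ne (by omega)]; exact sh.h2 i hi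
        have hagr : ∀ g'', ∀ i, y + 1 ≤ i → Function.update C.tape (y + 1) g'' (i + 1) = t0 (i + 1) := by
          intro g'' i hi
          rw [Function.update_of_ne (by omega)]
          exact agr i (by omega)
        have hzer : ∀ i < y + 1, i % R ∈ o.Z → t0 (i + 1) = 0 := by
          intro i hi hiz
          rcases Nat.lt_succ_iff_lt_or_eq.1 hi with hlt | heq
          · exact zer i hlt hiz
          · subst heq
            rw [← agr i le_rfl, ← hgd]
            by_contra hne
            exact hZ ⟨by omega, hiz⟩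
        right
        refine ⟨hx, Or.inr (Or.inl ?_)⟩
        rcases h with ⟨h1, h2, h3, h4, h5⟩ | ⟨h1, h2, h3, h4, h5⟩ | ⟨h1, h2, h3, h4⟩
        · refine ⟨t, g, y + 1, p, q, o, t0, ?_⟩
          exact ⟨h4, hg, by rw [htape, h5]; exact hshape _ (by omega), hpos, hyn, tr, run, md,
            by rw [htape]; exact hagr g', hzer, by rw [htape, h5]; exact sv.1 h1 h2 h3⟩
        · refine ⟨t, 1 - g, y + 1, p, q, o, t0, ?_⟩
          exact ⟨h4, by omega, by rw [htape, h5]; exact hshape _ (by omega), hpos, hyn, tr, run, md,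
            by rw [htape]; exact hagr g', hzer, by rw [htape, h5]; exact sv.2.1 h1 h2 h3⟩
        · refine ⟨t, e, y + 1, p, q, o, t0, ?_⟩
          exact ⟨h3, el, by rw [htape, h4]; exact hshape _ hg, hpos, hyn, tr, run, md,
            by rw [htape]; exact hagr g', hzer, by rw [htape, h4]; exact sv.2.2 h1 h2⟩
      · obtain ⟨-, hek, hq, hg, hq', hg', hr⟩ := h
        obtain ⟨rfl, rfl, hy0⟩ := cs_inj (st.symm.trans hq)
        have htt : (p, o, q) = (p1, o1, s1) := by
          rw [tr] at hM; exact Option.some.inj hM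
        obtain ⟨rfl, rfl, rfl⟩ : p = p1 ∧ o = o1 ∧ q = s1 := by
          simpa [Prod.mk.injEq] using htt
        rw [hr] at hpos
        simp at hpos
        rw [pos] at hg htape
        have hyn : y = n := by
          by_contra hyn
          have := sh.h1 y (by omega)
          omega
        subst hyn
        have ht : C'.tape = C.tape := by
          rw [htape, hg', ← hg]; exact Function.update_eq_self _ _
        right
        refine ⟨hx, Or.inl ⟨q, hq', by rw [ht]; exact sh, by omega, ?_, Or.inr hy0⟩⟩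
        obtain ⟨k, run⟩ := run
        refine ⟨k + 1, ?_⟩
        rw [ht]
        have hRl : y = R * (y / R) := by
          have := Nat.div_add_mod y R
          omega
        refine CRun.snoc run (List.mem_of_getElem? tr) ⟨fun j hj => ?_, ?_⟩ (fun j => ?_)
        · by_cases hjR : R ≤ j
          · exact V_ge R _ hR _ _ hjR
          · unfold V
            refine Finset.sum_eq_zero fun i hi => ?_
            split_ifs with hij
            · rw [zer i (Finset.mem_range.1 hi) (by rw [hij]; exact hj), zero_mul]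
            · rfl
        · by_cases hk0 : o.kind = 0
          · left
            refine ⟨hk0, ?_⟩
            funext j
            by_cases hj : j = o.j
            · rw [hj]; exact rel.k0 hk0
            · exact rel.ne j hj
          · have he0 : e = 0 := by tauto
            subst he0
            by_cases hk1 : o.kind = 1
            · right; left
              refine ⟨hk1, ?_⟩
              funext j
              by_cases hj : j = o.j
              · rw [hj, Function.update_self]
                have := rel.k1 hk1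
                simpa using this
              · rw [Function.update_of_ne hj]; exact rel.ne j hj
            · by_cases hk2 : o.kind = 2
              · right; right
                have := rel.k2 hk2
                rw [zero_mul, add_zero] at this
                refine ⟨hk2, by omega, ?_⟩
                funext j
                by_cases hj : j = o.j
                · rw [hj, Function.update_self]; omega
                · rw [Function.update_of_ne hj]; exact rel.ne j hj
              · have := rel.k3 (by omega)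
                omega
        · rw [hRl]
          have e1 : R * (y / R) / R = y / R := Nat.mul_div_cancel_left _ hR
          rw [e1]
          exact V_lt R (y / R) hR C.tape (fun i hi => sh.h1 i (by omega)) j
    · exfalso
      rcases htr with h | h | ⟨p1, h⟩ | ⟨t', p1, o1, s1, hM, h | ⟨e', i', h⟩ | ⟨e', h⟩⟩
      · omega
      · have := two_le_cr pa; omega
      · have := two_le_cr p1; omega
      · have := two_le_cr p1; omega
      · have := three_le_cs t' e' i'; omega
      · have := three_le_cs t' e' 0; omega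

lemma inv_run (M : List (σ × Op × σ)) (R : ℕ) (hR : 0 < R) (p0 pa : σ) (h0 : p0 ≠ pa)
    (x : List Bool) (n : ℕ) (hn : n = x.length - 1) (S k : ℕ) (C C' : Conf)
    (hC : Inv M R p0 pa x n C)
    (hs : NRun (ntmOf M R p0 pa) S k C C') : Inv M R p0 pa x n C' := by
  induction hs with
  | refl C h => exact hC
  | step k C C1 C2 h h1 h2 ih => exact ih (inv_step M R hR p0 pa h0 x n hn C C1 hC h1)

end

end N1

open N1 in
theorem ntm_sound {σ : Type} [Encodable σ] (M : List (σ × Op × σ)) (R : ℕ) (hR : 0 < R)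
    (p0 pa : σ) (h0 : p0 ≠ pa) (x : List Bool) (h : Accepts (ntmOf M R p0 pa) x) :
    ∃ ℓ n c', x.length = R * ℓ + 1 ∧ CRun M (2 ^ ℓ) n (p0, cx R x) (pa, c') := by
  obtain ⟨S, t, k, -, C, hrun, hq⟩ := h
  have hinv := inv_run M R hR p0 pa h0 x (x.length - 1) rfl S k _ C
    (Or.inl ⟨rfl, rfl, rfl⟩) hrun
  rcases hinv with ⟨hq0, -⟩ | ⟨hx, ⟨p, hB⟩ | ⟨t, e, y, p, q, o, t0, hB⟩ | ⟨-, hmod, c, k, hr⟩⟩
  · omega
  · have := hB.st; have := two_le_cr p; omega
  · have := hB.st; have := three_le_cs t e (y % R); omega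
  · refine ⟨(x.length - 1) / R, k, c, ?_, hr⟩
    have := Nat.div_add_mod (x.length - 1) R
    omega

end Pool.Agent.helper66.JS
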