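import Pool.Agent.helper63.JS2.N1

/-!
# Module N2: completeness of the sweeping machine
-/

set_option autoImplicit false

namespace Pool.Agent.helper66.JS

open Turing Finset

namespace N2

open N1

lemma NRun.trans {δ : NTM} {S a b : ℕ} {C C' C'' : Conf} (h1 : NRun δ S a C C')
    (h2 : NRun δ S b C' C'') : NRun δ S (a + b) C C'' := by
  induction h1 with
  | refl C h => rw [Nat.zero_add]; exact h2
  | step n C C1 C2 h hs _ ih =>
    rw [Nat.add_right_comm]
    exact NRun.step _ _ _ _ h hs (ih h2)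

lemma NRun.one {δ : NTM} {S : ℕ} {C C' : Conf} (h : C.pos < S) (h' : C'.pos < S)
    (hs : NStep δ C C') : NRun δ S 1 C C' :=
  NRun.step 0 C C' C' h hs (NRun.refl C' h')

section

variable {σ : Type} [Encodable σ] (M : List (σ × Op × σ)) (R : ℕ) (p0 pa : σ)

lemma m1 (g : ℕ) (hg : g < 2) : (0, g, cr p0, 3, true) ∈ ntmOf M R p0 pa := by
  unfold ntmOf
  simp only [List.mem_append, List.mem_cons, Prod.mk.injEq]
  left; left
  interval_cases g <;> simp

lemma m2 : (cr pa, 3, 1, 3, true) ∈ ntmOf M R p0 pa := by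
  unfold ntmOf
  simp only [List.mem_append, List.mem_cons, Prod.mk.injEq]
  left; left
  simp

lemma m3 (q : σ) (hq : q ∈ p0 :: M.map (fun t => t.2.2)) (g : ℕ) (hg : g < 3) :
    (cr q, g, cr q, g, false) ∈ ntmOf M R p0 pa := by
  unfold ntmOf
  rw [List.mem_append, List.mem_append]
  left; right
  rw [List.mem_flatMap]
  exact ⟨q, hq, List.mem_map.2 ⟨g, List.mem_range.2 hg, rfl⟩⟩

variable {M}

omit [Encodable σ] in
lemma mem_zip {t : ℕ} {u : σ × Op × σ} (h : M[t]? = some u) : (u, t) ∈ M.zipIdx := by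
  rw [List.mk_mem_zipIdx_iff_getElem?]
  simpa using h

lemma m4 {t : ℕ} {p q : σ} {o : Op} (h : M[t]? = some (p, o, q)) :
    (cr p, 3, cs t 1 0, 3, true) ∈ ntmOf M R p0 pa := by
  unfold ntmOf
  rw [List.mem_append]
  right
  rw [List.mem_flatMap]
  exact ⟨_, mem_zip h, List.mem_cons_self⟩

lemma m5 {t : ℕ} {p q : σ} {o : Op} (h : M[t]? = some (p, o, q)) (e i g : ℕ) (he : e < 2)
    (hi : i < R) (hg : g < 2) (hZ : ¬ (g = 1 ∧ i ∈ o.Z)) :
    (if e = 1 ∧ i = o.j ∧ o.kind = 1 then (cs t e i, g, cs t g ((i + 1) % R), 1 - g, true)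
     else if e = 1 ∧ i = o.j ∧ o.kind = 2 then
      (cs t e i, g, cs t (1 - g) ((i + 1) % R), 1 - g, true)
     else (cs t e i, g, cs t e ((i + 1) % R), g, true)) ∈ ntmOf M R p0 pa := by
  unfold ntmOf
  rw [List.mem_append]
  right
  rw [List.mem_flatMap]
  refine ⟨_, mem_zip h, List.mem_cons_of_mem _ ?_⟩
  unfold sweepT
  rw [List.mem_append]
  left
  rw [List.mem_flatMap]
  refine ⟨e, List.mem_range.2 he, ?_⟩
  rw [List.mem_flatMap]
  refine ⟨i, List.mem_range.2 hi, ?_⟩
  rw [List.mem_flatMap]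
  refine ⟨g, List.mem_range.2 hg, ?_⟩
  rw [if_neg hZ]
  split_ifs <;> exact List.mem_cons_self

lemma m6 {t : ℕ} {p q : σ} {o : Op} (h : M[t]? = some (p, o, q)) (e : ℕ) (he : e < 2)
    (hk : e = 0 ∨ o.kind = 0) : (cs t e 0, 2, cr q, 2, false) ∈ ntmOf M R p0 pa := by
  unfold ntmOf
  rw [List.mem_append]
  right
  rw [List.mem_flatMap]
  refine ⟨_, mem_zip h, List.mem_cons_of_mem _ ?_⟩
  unfold sweepT
  rw [List.mem_append]
  right
  rw [List.mem_flatMap]
  refine ⟨e, List.mem_range.2 he, ?_⟩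
  rw [if_pos hk]
  exact List.mem_cons_self

lemma cnt_mul (hR : 0 < R) (j l : ℕ) (hj : j < R) : cnt R j (R * l) = l := by
  have e := Nat.count_modEq_card (b := R * l) hR j
  unfold cnt
  have e2 : (fun i => i % R = j) = (fun i => i ≡ j [MOD R]) := by
    funext i
    unfold Nat.ModEq
    rw [Nat.mod_eq_of_lt hj]
  rw [Nat.mul_mod_right, Nat.mul_div_cancel_left _ hR] at e
  simp only [Nat.not_lt_zero, if_false, add_zero] at e
  refine Eq.trans ?_ e
  congr 1

/-- the sweep to the right -/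
lemma sweep (hR : 0 < R) {t : ℕ} {p q : σ} {o : Op} (h : M[t]? = some (p, o, q)) (n S : ℕ)
    (hS : n + 1 < S) (T0 : ℕ → ℕ) (hT : Shape n T0)
    (hz : ∀ i < n, i % R ∈ o.Z → T0 (i + 1) = 0) :
    ∀ y ≤ n, ∃ e tape, e < 2 ∧ Shape n tape ∧ (∀ i, y ≤ i → tape (i + 1) = T0 (i + 1)) ∧
      Rel R o (V R n T0) (V R n tape) e y ∧
      NRun (ntmOf M R p0 pa) S y ⟨cs t 1 0, 1, T0⟩ ⟨cs t e (y % R), y + 1, tape⟩ := by
  intro y
  induction y with
  | zero =>
    intro _
    refine ⟨1, T0, by omega, hT, fun _ _ => rfl, ⟨fun _ _ => rfl, fun _ => rfl, fun _ => ?_,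
      fun _ => ?_, fun _ => rfl⟩, ?_⟩
    · simp [cnt]
    · simp [cnt]
    · rw [Nat.zero_mod]
      exact NRun.refl _ (by show 1 < S; omega)
  | succ y ih =>
    intro hy
    obtain ⟨e, tape, he, hsh, hagr, hrel, hrun⟩ := ih (by omega)
    have hyn : y < n := by omega
    have hg : tape (y + 1) < 2 := hsh.h1 y hyn
    have hZ : ¬ (tape (y + 1) = 1 ∧ y % R ∈ o.Z) := by
      rintro ⟨h1, h2⟩
      have := hz y hyn h2
      rw [← hagr y le_rfl] at this
      omega
    have sv := step_V R n y hR o (V R n T0) tape e _ hyn rfl he hg hrel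
    have hm := m5 R p0 pa h e (y % R) (tape (y + 1)) he (Nat.mod_lt _ hR) hg hZ
    have hmod : (y % R + 1) % R = (y + 1) % R := by rw [Nat.mod_add_mod]
    rw [hmod] at hm
    have hshape : ∀ g'', g'' < 2 → Shape n (Function.update tape (y + 1) g'') := by
      intro g'' hg''
      refine ⟨?_, fun i hi => ?_, fun i hi => ?_⟩
      · rw [Function.update_of_ne (by omega)]; exact hsh.h0
      · by_cases hiy : i = y
        · subst hiy; rw [Function.update_self]; exact hg''
        · rw [Function.update_of_ne (by omega)]; exact hsh.h1 i hi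
      · rw [Function.update_of_ne (by omega)]; exact hsh.h2 i hi
    have hagr' : ∀ g'', ∀ i, y + 1 ≤ i →
        Function.update tape (y + 1) g'' (i + 1) = T0 (i + 1) := by
      intro g'' i hi
      rw [Function.update_of_ne (by omega)]
      exact hagr i (by omega)
    have hstep : ∀ e' g', (cs t e (y % R), tape (y + 1), cs t e' ((y + 1) % R), g', true) ∈
        ntmOf M R p0 pa → NRun (ntmOf M R p0 pa) S (y + 1) ⟨cs t 1 0, 1, T0⟩
          ⟨cs t e' ((y + 1) % R), y + 1 + 1, Function.update tape (y + 1) g'⟩ := by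
      intro e' g' hmem
      refine NRun.trans hrun (NRun.one (by show y + 1 < S; omega) (by show y + 1 + 1 < S; omega)
        ⟨g', true, hmem, rfl, ?_⟩)
      simp
    split_ifs at hm with h1 h2
    · refine ⟨tape (y + 1), _, hg, hshape (1 - tape (y + 1)) (by omega), hagr' _,
        sv.1 h1.1 h1.2.1 h1.2.2, hstep _ _ hm⟩
    · refine ⟨1 - tape (y + 1), _, by omega, hshape (1 - tape (y + 1)) (by omega), hagr' _,
        sv.2.1 h2.1 h2.2.1 h2.2.2, hstep _ _ hm⟩
    · refine ⟨e, _, he, hshape (tape (y + 1)) hg, hagr' _, sv.2.2 h1 h2, hstep _ _ hm⟩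

/-- the way back -/
lemma back (q : σ) (hq : q ∈ p0 :: M.map (fun t => t.2.2)) (n S : ℕ) (hS : n + 1 < S)
    (tape : ℕ → ℕ) (hT : Shape n tape) (i : ℕ) (hi : i ≤ n + 1) :
    NRun (ntmOf M R p0 pa) S i ⟨cr q, i, tape⟩ ⟨cr q, 0, tape⟩ := by
  induction i with
  | zero => exact NRun.refl _ (by show 0 < S; omega)
  | succ i ih =>
    have hg : tape (i + 1) < 3 := by
      rcases lt_or_ge i n with h | h
      · have := hT.h1 i h; omega
      · have := hT.h2 i h; omega
    refine NRun.step i _ ⟨cr q, i, tape⟩ _ (by show i + 1 < S; omega) ?_ (ih (by omega))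
    refine ⟨tape (i + 1), false, m3 M R p0 pa q hq _ hg, ?_, ?_⟩
    · exact (Function.update_eq_self _ _).symm
    · simp

lemma one_step (hR : 0 < R) {t : ℕ} {p q : σ} {o : Op} (h : M[t]? = some (p, o, q))
    (hk : o.kind = 0 ∨ o.j < R) (l S : ℕ)
    (hS : R * l + 1 < S) (T0 : ℕ → ℕ) (hT : Shape (R * l) T0) (c' : ℕ → ℕ)
    (ho : o.Ok (V R (R * l) T0) c') (hb : ∀ j, c' j < 2 ^ l) :
    ∃ tape, Shape (R * l) tape ∧ V R (R * l) tape = c' ∧
      NRun (ntmOf M R p0 pa) S (2 * (R * l + 1)) ⟨cr p, 0, T0⟩ ⟨cr q, 0, tape⟩ := by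
  have hz : ∀ i < R * l, i % R ∈ o.Z → T0 (i + 1) = 0 := by
    intro i hi hiz
    have h1 := ho.1 _ hiz
    unfold V at h1
    rw [Finset.sum_eq_zero_iff] at h1
    have h2 := h1 i (Finset.mem_range.2 hi)
    rw [if_pos rfl] at h2
    rcases Nat.mul_eq_zero.1 h2 with h3 | h3
    · exact h3
    · exact absurd h3 (by positivity)
  obtain ⟨e, tape, he, hsh, -, hrel, hrun⟩ :=
    sweep R p0 pa hR h (R * l) S hS T0 hT hz (R * l) le_rfl
  have hmod : R * l % R = 0 := Nat.mul_mod_right _ _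
  rw [hmod] at hrun
  have hlt := V_lt R l hR tape (fun i hi => hsh.h1 i hi)
  have he0 : e = 0 ∨ o.kind = 0 := by
    by_contra hcon
    push Not at hcon
    obtain ⟨h1, h2⟩ := hcon
    have he1 : e = 1 := by omega
    have hj : o.j < R := by tauto
    have hcnt := cnt_mul R hR o.j l hj
    rcases ho.2 with h3 | h3 | h3
    · exact h2 h3.1
    · have h4 := hrel.k1 h3.1
      have h5 := hb o.j
      rw [h3.2, Function.update_self] at h5
      rw [he1, hcnt] at h4
      omega
    · have h4 := hrel.k2 h3.1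
      have h5 := hlt o.j
      rw [he1, hcnt] at h4
      omega
  have hV : V R (R * l) tape = c' := by
    funext j
    rcases ho.2 with h3 | h3 | h3
    · rw [h3.2]
      by_cases hj : j = o.j
      · rw [hj]; exact hrel.k0 h3.1
      · exact hrel.ne j hj
    · have e0 : e = 0 := by
        rcases he0 with h | h
        · exact h
        · omega
      rw [h3.2]
      by_cases hj : j = o.j
      · rw [hj, Function.update_self]
        have := hrel.k1 h3.1
        rw [e0] at this
        omega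
      · rw [Function.update_of_ne hj]; exact hrel.ne j hj
    · have e0 : e = 0 := by
        rcases he0 with h | h
        · exact h
        · omega
      rw [h3.2.2]
      by_cases hj : j = o.j
      · rw [hj, Function.update_self]
        have := hrel.k2 h3.1
        rw [e0] at this
        omega
      · rw [Function.update_of_ne hj]; exact hrel.ne j hj
  refine ⟨tape, hsh, hV, ?_⟩
  have r1 : NRun (ntmOf M R p0 pa) S 1 ⟨cr p, 0, T0⟩ ⟨cs t 1 0, 1, T0⟩ := by
    refine NRun.one (by show 0 < S; omega) (by show 1 < S; omega) ⟨3, true, ?_, ?_, ?_⟩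
    · show (cr p, T0 0, _, _, _) ∈ _
      rw [hT.h0]
      exact m4 R p0 pa h
    · show T0 = Function.update T0 0 3
      rw [← hT.h0]
      exact (Function.update_eq_self _ _).symm
    · simp
  have hb2 : tape (R * l + 1) = 2 := hsh.h2 _ le_rfl
  have r2 : NRun (ntmOf M R p0 pa) S 1 ⟨cs t e 0, R * l + 1, tape⟩ ⟨cr q, R * l, tape⟩ := by
    refine NRun.one (by show R * l + 1 < S; omega) (by show R * l < S; omega)
      ⟨2, false, ?_, ?_, ?_⟩
    · show (cs t e 0, tape (R * l + 1), _, _, _) ∈ _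
      rw [hb2]
      exact m6 R p0 pa h e he he0
    · show tape = Function.update tape (R * l + 1) 2
      rw [← hb2]
      exact (Function.update_eq_self _ _).symm
    · simp
  have hq : q ∈ p0 :: M.map (fun t => t.2.2) :=
    List.mem_cons_of_mem _ (List.mem_map.2 ⟨_, List.mem_of_getElem? h, rfl⟩)
  have r3 := back R p0 pa q hq (R * l) S hS tape hsh (R * l) (by omega)
  have := NRun.trans (NRun.trans (NRun.trans r1 hrun) r2) r3
  have e1 : 1 + R * l + 1 + R * l = 2 * (R * l + 1) := by ring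
  rw [e1] at this
  exact this

lemma all_steps (hR : 0 < R) (hM : ∀ t ∈ M, t.2.1.kind = 0 ∨ t.2.1.j < R) (l S : ℕ)
    (hS : R * l + 1 < S) (n : ℕ) (z z' : σ × (ℕ → ℕ)) (h : CRun M (2 ^ l) n z z') :
    ∀ T0 : ℕ → ℕ, Shape (R * l) T0 → V R (R * l) T0 = z.2 →
      ∃ tape, Shape (R * l) tape ∧ V R (R * l) tape = z'.2 ∧
      NRun (ntmOf M R p0 pa) S (2 * (R * l + 1) * n) ⟨cr z.1, 0, T0⟩ ⟨cr z'.1, 0, tape⟩ := by
  induction h with
  | refl z =>
    intro T0 hT hV
    exact ⟨T0, hT, hV, NRun.refl _ (by show 0 < S; omega)⟩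
  | step n p q o c c' z hM' ho hb _ ih =>
    intro T0 hT hV
    obtain ⟨t, ht⟩ := List.mem_iff_getElem?.1 hM'
    simp only at hV
    subst hV
    obtain ⟨tape, h1, h2, h3⟩ := one_step R p0 pa hR ht (hM _ hM') l S hS T0 hT c' ho hb
    obtain ⟨tape', h4, h5, h6⟩ := ih tape h1 h2
    refine ⟨tape', h4, h5, ?_⟩
    have := NRun.trans h3 h6
    rw [show 2 * (R * l + 1) * (n + 1) = 2 * (R * l + 1) + 2 * (R * l + 1) * n by ring]
    exact this

end

end N2

open N1 N2 in
theorem ntm_complete {σ : Type} [Encodable σ] (M : List (σ × Op × σ)) (R : ℕ) (hR : 0 < R)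
    (p0 pa : σ) (hM : ∀ t ∈ M, t.2.1.kind = 0 ∨ t.2.1.j < R) (x : List Bool) (ℓ n : ℕ)
    (c' : ℕ → ℕ) (hx : x.length = R * ℓ + 1) (h : CRun M (2 ^ ℓ) n (p0, cx R x) (pa, c')) :
    AcceptsIn (ntmOf M R p0 pa) x (x.length + 1) (2 * x.length * n + 3) := by
  set T0 := Function.update (tape0 x) 0 3 with hT0
  have hT : Shape (R * ℓ) T0 := by
    refine ⟨Function.update_self .., fun i hi => ?_, fun i hi => ?_⟩
    · rw [hT0, Function.update_of_ne (by omega)]
      unfold tape0
      rw [if_pos (by omega)]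
      exact Bool.toNat_lt _
    · rw [hT0, Function.update_of_ne (by omega)]
      unfold tape0
      rw [if_neg (by omega)]
  have hV : V R (R * ℓ) T0 = cx R x := by
    funext j
    unfold V cx
    rw [hx, Nat.add_sub_cancel]
    refine Finset.sum_congr rfl fun i hi => ?_
    have hlt : i + 1 < x.length := by have := Finset.mem_range.1 hi; omega
    have e1 : T0 (i + 1) = (x.getD (i + 1) false).toNat := by
      rw [hT0, Function.update_of_ne (by omega)]
      unfold tape0
      rw [if_pos hlt]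
    rw [e1]
  obtain ⟨tape, h1, h2, h3⟩ := all_steps R p0 pa hR hM ℓ (x.length + 1) (by omega) n _ _ h T0 hT hV
  have r1 : NRun (ntmOf M R p0 pa) (x.length + 1) 1 (Conf.start x) ⟨cr p0, 1, T0⟩ := by
    refine NRun.one (by show 0 < _; omega) (by show 1 < _; omega) ⟨3, true, ?_, rfl, ?_⟩
    · show (0, tape0 x 0, _, _, _) ∈ _
      refine m1 M R p0 pa _ ?_
      unfold tape0
      rw [if_pos (by omega)]
      exact Bool.toNat_lt _
    · rw [if_pos rfl]; rfl
  have r2 := back (M := M) R p0 pa p0 List.mem_cons_self (R * ℓ) (x.length + 1) (by omega) T0 hT 1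
    (by omega)
  have r3 : NRun (ntmOf M R p0 pa) (x.length + 1) 1 ⟨cr pa, 0, tape⟩ ⟨1, 1, tape⟩ := by
    refine NRun.one (by show 0 < _; omega) (by show 1 < _; omega) ⟨3, true, ?_, ?_, ?_⟩
    · show (cr pa, tape 0, _, _, _) ∈ _
      rw [h1.h0]
      exact m2 M R p0 pa
    · show tape = Function.update tape 0 3
      rw [← h1.h0]
      exact (Function.update_eq_self _ _).symm
    · simp
  have := NRun.trans (NRun.trans (NRun.trans r1 r2) h3) r3
  refine ⟨_, ?_, _, this, rfl⟩
  rw [hx]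
  omega

end Pool.Agent.helper66.JS
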